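import Pool.Agent.Helper76.RL.Dim

/-! ELIMINATION. `q` polynomials `p` in `M = v + q` variables, a value `u0` of them: every coordinate `x a` of a
non degenerate solution of `p x = u0` is a root of a polynomial of bounded degree in the `v` free coordinates. -/

set_option autoImplicit false

namespace Pool.Agent.Helper76.PUR

open MvPolynomial Filter Topology
open Pool.Agent.Helper76.RL (xp xp_inj)

/-- the relation -/
theorem exists_relR (M D : ℕ) : ∃ L : ℕ, ∀ θ : Fin (M + 1) → MvPolynomial (Fin M) ℝ,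
    (∀ i, (θ i).totalDegree ≤ D) →
    ∃ H : MvPolynomial (Fin (M + 1)) ℝ, H ≠ 0 ∧ H.totalDegree ≤ L ∧ aeval θ H = 0 := by
  classical
  set n : ℕ := (M + 1) * D + 1 with hn
  set l : ℕ := n ^ M + 1 with hl
  refine ⟨(M + 1) * l, fun θ hθ => ?_⟩
  set P : (Fin (M + 1) → Fin l) → MvPolynomial (Fin M) ℝ := fun α => ∏ i, θ i ^ (α i : ℕ) with hP
  have hPd : ∀ α, (P α).totalDegree < l * n := by
    intro α
    have h1 : (P α).totalDegree ≤ (M + 1) * ((l - 1) * D) := by
      refine (totalDegree_finsetProd _ _).trans ?_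
      refine (Finset.sum_le_card_nsmul _ _ ((l - 1) * D) fun i _ => ?_).trans ?_
      · refine (totalDegree_pow _ _).trans ?_
        exact Nat.mul_le_mul (Nat.le_sub_one_of_lt (α i).2) (hθ i)
      · rw [Finset.card_univ, Fintype.card_fin, smul_eq_mul]
    have h2 : (M + 1) * ((l - 1) * D) ≤ (l - 1) * n := by
      rw [hn]
      calc (M + 1) * ((l - 1) * D) = (l - 1) * ((M + 1) * D) := by ring
        _ ≤ _ := Nat.mul_le_mul_left _ (Nat.le_succ _)
    have h3 : (l - 1) * n < l * n := Nat.mul_lt_mul_of_pos_right (by omega) (by omega)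
    omega
  let T : ((Fin (M + 1) → Fin l) → ℝ) →ₗ[ℝ] ((Fin M → Fin (l * n)) → ℝ) :=
    { toFun := fun c β => coeff (xp β) (∑ α, c α • P α)
      map_add' := by
        intro c d
        funext β
        simp only [Pi.add_apply, add_smul, Finset.sum_add_distrib, coeff_add]
      map_smul' := by
        intro r c
        funext β
        simp only [Pi.smul_apply, smul_eq_mul, RingHom.id_apply, mul_smul, ← Finset.smul_sum, coeff_smul] }
  have hfr : Module.finrank ℝ ((Fin M → Fin (l * n)) → ℝ) < Module.finrank ℝ ((Fin (M + 1) → Fin l) → ℝ) := by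
    rw [Module.finrank_fintype_fun_eq_card, Module.finrank_fintype_fun_eq_card]
    simp only [Fintype.card_fun, Fintype.card_fin]
    rw [mul_pow, pow_succ]
    refine Nat.mul_lt_mul_of_pos_left ?_ (by positivity)
    omega
  obtain ⟨c, hc0, hcT⟩ : ∃ c : (Fin (M + 1) → Fin l) → ℝ, c ≠ 0 ∧ T c = 0 := by
    have h1 := LinearMap.ker_ne_bot_of_finrank_lt (f := T) hfr
    obtain ⟨c, hc, hc0⟩ := Submodule.exists_mem_ne_zero_of_ne_bot h1
    exact ⟨c, hc0, LinearMap.mem_ker.mp hc⟩
  have hsum : ∑ α, c α • P α = 0 := by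
    ext β
    rw [coeff_zero]
    by_cases hβ : ∀ i, β i < l * n
    · have h1 := congrFun hcT (fun i => ⟨β i, hβ i⟩)
      have h2 : xp (fun i => (⟨β i, hβ i⟩ : Fin (l * n))) = β := by
        ext i
        rfl
      have h3 : coeff (xp (fun i => (⟨β i, hβ i⟩ : Fin (l * n)))) (∑ α, c α • P α) = 0 := h1
      rwa [h2] at h3
    · push Not at hβ
      obtain ⟨i, hi⟩ := hβ
      apply coeff_eq_zero_of_totalDegree_lt
      have h1 : (∑ α, c α • P α).totalDegree < l * n := by
        have hpos : 0 < l * n := Nat.mul_pos (by omega) (by omega)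
        refine (totalDegree_finsetSum _ _).trans_lt ?_
        rw [Finset.sup_lt_iff (by simpa using hpos)]
        intro α _
        exact (totalDegree_smul_le _ _).trans_lt (hPd α)
      refine h1.trans_le (hi.trans ?_)
      by_cases hm : i ∈ β.support
      · exact Finset.single_le_sum (f := fun j => β j) (fun _ _ => Nat.zero_le _) hm
      · have : β i = 0 := by simpa using hm
        rw [this]
        exact Nat.zero_le _
  refine ⟨∑ α, monomial (xp α) (c α), ?_, ?_, ?_⟩
  · obtain ⟨α, hα⟩ := Function.ne_iff.mp hc0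
    intro h0
    apply hα
    have h1 := congrArg (coeff (xp α)) h0
    rw [coeff_sum, coeff_zero] at h1
    rw [Finset.sum_eq_single α] at h1
    · simpa using h1
    · intro b _ hb
      rw [coeff_monomial, if_neg (fun h => hb (xp_inj h))]
    · intro h
      exact absurd (Finset.mem_univ _) h
  · refine (totalDegree_finsetSum _ _).trans (Finset.sup_le fun α _ => ?_)
    refine (totalDegree_monomial_le _ _).trans ?_
    have h1 : (xp α).sum (fun _ e => e) ≤ ∑ i, (α i : ℕ) := by
      rw [Finsupp.sum_fintype _ _ (fun _ => rfl)]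
      exact le_rfl
    refine h1.trans ?_
    refine (Finset.sum_le_card_nsmul _ _ l fun i _ => (α i).2.le).trans ?_
    rw [Finset.card_univ, Fintype.card_fin, smul_eq_mul]
  · rw [map_sum]
    rw [← hsum]
    refine Finset.sum_congr rfl fun α _ => ?_
    rw [aeval_monomial, Algebra.smul_def]
    congr 1
    rw [Finsupp.prod_fintype _ _ (fun _ => pow_zero _)]
    rfl


lemma totalDegree_aeval_leR {n k : ℕ} (θ : Fin n → MvPolynomial (Fin k) ℝ) (hθ : ∀ i, (θ i).totalDegree ≤ 1)
    (H : MvPolynomial (Fin n) ℝ) : (aeval θ H).totalDegree ≤ H.totalDegree := by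
  classical
  rw [aeval_def, eval₂_eq']
  refine (totalDegree_finsetSum _ _).trans (Finset.sup_le fun e he => ?_)
  have h1 : (∏ j, θ j ^ e j).totalDegree ≤ ∑ j, e j := by
    refine (totalDegree_finsetProd _ _).trans (Finset.sum_le_sum fun j _ => ?_)
    refine (totalDegree_pow _ _).trans ?_
    calc e j * (θ j).totalDegree ≤ e j * 1 := Nat.mul_le_mul_left _ (hθ j)
      _ = e j := mul_one _
  have h2 : ∑ j, e j ≤ H.totalDegree := by
    have := le_totalDegree he
    rwa [Finsupp.sum_fintype _ _ (fun _ => rfl)] at this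
  refine (totalDegree_mul _ _).trans ?_
  rw [algebraMap_eq, totalDegree_C, zero_add]
  exact h1.trans h2

lemma eval_aevalR {n k : ℕ} (x : Fin k → ℝ) (θ : Fin n → MvPolynomial (Fin k) ℝ) (H : MvPolynomial (Fin n) ℝ) :
    eval x (aeval θ H) = eval (fun i => eval x (θ i)) H := by
  induction H using MvPolynomial.induction_on with
  | C a =>
    rw [← algebraMap_eq, AlgHom.commutes, algebraMap_eq, eval_C]
    exact (eval_C a).symm
  | add p q hp hq => rw [map_add, map_add, map_add, hp, hq]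
  | mul_X p i hp => rw [map_mul, map_mul, map_mul, hp, aeval_X, eval_X]

variable {M v q : ℕ}

/-- the point with free coordinates `Y` and values `u` -/
def pt (E : Fin v ⊕ Fin q ≃ Fin M) (Y : Fin v → ℝ) (u : Fin q → ℝ) : Fin M → ℝ := fun a => Sum.elim Y u (E.symm a)

/-- the line of values -/
noncomputable def lns (E : Fin v ⊕ Fin q ≃ Fin M) (u0 w : Fin q → ℝ) : Fin (M + 1) → MvPolynomial (Fin (v + 2)) ℝ :=
  Fin.cons (X 1) (fun a => Sum.elim (fun i => X i.succ.succ) (fun j => C (u0 j) + C (w j) * X 0) (E.symm a))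

lemma lns_deg (E : Fin v ⊕ Fin q ≃ Fin M) (u0 w : Fin q → ℝ) (i : Fin (M + 1)) : (lns E u0 w i).totalDegree ≤ 1 := by
  unfold lns
  refine Fin.cases ?_ (fun a => ?_) i
  · rw [Fin.cons_zero, totalDegree_X]
  · rw [Fin.cons_succ]
    rcases E.symm a with i | j
    · rw [Sum.elim_inl, totalDegree_X]
    · rw [Sum.elim_inr]
      refine (totalDegree_add _ _).trans (max_le ?_ ?_)
      · rw [totalDegree_C]
        exact Nat.zero_le _
      · refine (totalDegree_mul _ _).trans ?_
        rw [totalDegree_C, zero_add, totalDegree_X]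

lemma lns_eval (E : Fin v ⊕ Fin q ≃ Fin M) (u0 w : Fin q → ℝ) (t z : ℝ) (Y : Fin v → ℝ) (H : MvPolynomial (Fin (M + 1)) ℝ) :
    eval (Fin.cons t (Fin.cons z Y : Fin (v + 1) → ℝ) : Fin (v + 2) → ℝ) (aeval (lns E u0 w) H) =
      eval (Fin.cons z (pt E Y fun j => u0 j + t * w j) : Fin (M + 1) → ℝ) H := by
  rw [eval_aevalR]
  congr 1
  congr 1
  funext i
  refine Fin.cases ?_ (fun a => ?_) i
  · unfold lns
    rw [Fin.cons_zero, Fin.cons_zero, eval_X]
    rfl
  · unfold lns pt
    rw [Fin.cons_succ, Fin.cons_succ]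
    rcases E.symm a with i | j
    · rw [Sum.elim_inl, Sum.elim_inl, eval_X]
      rfl
    · rw [Sum.elim_inr, Sum.elim_inr, map_add, eval_C, map_mul, eval_C, eval_X, Fin.cons_zero]
      ring

/-- SPECIALIZATION along a line of values -/
theorem exists_spec (E : Fin v ⊕ Fin q ≃ Fin M) (H : MvPolynomial (Fin (M + 1)) ℝ) (hH : H ≠ 0) (u0 : Fin q → ℝ) :
    ∃ f : MvPolynomial (Fin (v + 1)) ℝ, f ≠ 0 ∧ f.totalDegree ≤ H.totalDegree ∧ ∃ w : Fin q → ℝ, ∀ (Y : Fin v → ℝ) (z : ℝ),
      (∀ δ : ℝ, 0 < δ → ∃ t z' : ℝ, t ≠ 0 ∧ |t| < δ ∧ |z' - z| < δ ∧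
        eval (Fin.cons z' (pt E Y fun j => u0 j + t * w j) : Fin (M + 1) → ℝ) H = 0) →
      eval (Fin.cons z Y : Fin (v + 1) → ℝ) f = 0 := by
  classical
  obtain ⟨y1, hy1⟩ : ∃ y : Fin (M + 1) → ℝ, eval y H ≠ 0 := by
    by_contra h
    push Not at h
    apply hH
    apply MvPolynomial.funext
    intro x
    rw [h x, map_zero]
  set w : Fin q → ℝ := fun j => y1 (E (Sum.inr j)).succ - u0 j with hw
  set H' : MvPolynomial (Fin (v + 2)) ℝ := aeval (lns E u0 w) H with hH'
  have hH'0 : H' ≠ 0 := by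
    intro h0
    apply hy1
    have h1 := lns_eval E u0 w 1 (y1 0) (fun i => y1 (E (Sum.inl i)).succ) H
    rw [← hH', h0, map_zero] at h1
    rw [show y1 = (Fin.cons (y1 0) (pt E (fun i => y1 (E (Sum.inl i)).succ) fun j => u0 j + 1 * w j) :
      Fin (M + 1) → ℝ) from ?_]
    · exact h1.symm
    · funext i
      refine Fin.cases ?_ (fun a => ?_) i
      · rw [Fin.cons_zero]
      · rw [Fin.cons_succ]
        unfold pt
        have e1 : ∀ s : Fin v ⊕ Fin q, y1 (E s).succ = Sum.elim (fun i => y1 (E (Sum.inl i)).succ)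
            (fun j => u0 j + 1 * w j) s := by
          intro s
          rcases s with i | j
          · rfl
          · rw [Sum.elim_inr, hw]
            ring
        have e2 := e1 (E.symm a)
        rwa [Equiv.apply_symm_apply] at e2
  set P := finSuccEquiv ℝ (v + 1) H' with hP
  have hP0 : P ≠ 0 := by
    rw [hP]
    intro h
    apply hH'0
    exact (finSuccEquiv ℝ (v + 1)).injective (by rw [h, map_zero])
  obtain ⟨P1, hP1, hP2⟩ := Polynomial.exists_eq_pow_rootMultiplicity_mul_and_not_dvd P hP0 0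
  set k := P.rootMultiplicity 0 with hk
  rw [map_zero, sub_zero] at hP1 hP2
  have hc : P1.coeff 0 ≠ 0 := fun h => hP2 (Polynomial.X_dvd_iff.mpr h)
  have hck : P.coeff k = P1.coeff 0 := by
    conv_lhs => rw [hP1]
    rw [mul_comm, Polynomial.coeff_mul_X_pow', if_pos le_rfl, Nat.sub_self]
  refine ⟨P1.coeff 0, hc, ?_, w, ?_⟩
  · rw [← hck, hP]
    have h1 := totalDegree_coeff_finSuccEquiv_add_le H' k (by rw [← hP, hck]; exact hc)
    have h2 := totalDegree_aeval_leR (lns E u0 w) (lns_deg E u0 w) H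
    rw [← hH'] at h2
    omega
  · intro Y z hδ
    by_contra hne
    set g : ℝ × ℝ → ℝ := fun s => Polynomial.eval s.1 (P1.map (eval (Fin.cons s.2 Y : Fin (v + 1) → ℝ))) with hg
    have hgc : Continuous g := by
      have e1 : g = fun s : ℝ × ℝ => eval (Fin.cons s.1 (Fin.cons s.2 Y : Fin (v + 1) → ℝ) : Fin (v + 2) → ℝ)
          ((finSuccEquiv ℝ (v + 1)).symm P1) := by
        funext s
        rw [eval_eq_eval_mv_eval', AlgEquiv.apply_symm_apply]
      rw [e1]
      refine (MvPolynomial.continuous_eval _).comp ?_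
      refine continuous_pi fun i => ?_
      refine Fin.cases ?_ (fun i => ?_) i
      · simp only [Fin.cons_zero]
        exact continuous_fst
      · simp only [Fin.cons_succ]
        refine Fin.cases ?_ (fun i => ?_) i
        · simp only [Fin.cons_zero]
          exact continuous_snd
        · simp only [Fin.cons_succ]
          exact continuous_const
    have hg0 : g (0, z) ≠ 0 := by
      simp only [hg]
      rw [← Polynomial.coeff_zero_eq_eval_zero, Polynomial.coeff_map]
      exact hne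
    have hnb : {s : ℝ × ℝ | g s ≠ 0} ∈ 𝓝 ((0 : ℝ), z) := hgc.continuousAt.eventually_ne hg0
    rw [Metric.mem_nhds_iff] at hnb
    obtain ⟨δ, hδ0, hδ1⟩ := hnb
    obtain ⟨t, z', ht0, ht, hz, he⟩ := hδ δ hδ0
    have h1 : ((t, z') : ℝ × ℝ) ∈ Metric.ball ((0 : ℝ), z) δ := by
      rw [Metric.mem_ball, Prod.dist_eq, max_lt_iff]
      constructor
      · rw [Real.dist_eq, sub_zero]
        exact ht
      · rw [Real.dist_eq]
        exact hz
    have h2 : g (t, z') ≠ 0 := hδ1 h1
    apply h2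
    have h3 := lns_eval E u0 w t z' Y H
    rw [he, ← hH', eval_eq_eval_mv_eval', ← hP] at h3
    have h4 : Polynomial.eval t (P.map (eval (Fin.cons z' Y : Fin (v + 1) → ℝ))) = t ^ k * g (t, z') := by
      conv_lhs => rw [hP1]
      rw [Polynomial.map_mul, Polynomial.map_pow, Polynomial.map_X, Polynomial.eval_mul, Polynomial.eval_pow,
        Polynomial.eval_X]
    rw [h4] at h3
    rcases mul_eq_zero.mp h3 with h5 | h5
    · exact absurd h5 (pow_ne_zero _ ht0)
    · exact h5

/-- near the point `x` every value near `u0` is attained with the same free coordinates -/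
def Opn (E : Fin v ⊕ Fin q ≃ Fin M) (p : Fin q → MvPolynomial (Fin M) ℝ) (u0 : Fin q → ℝ) (x : Fin M → ℝ) : Prop :=
  ∀ δ : ℝ, 0 < δ → ∀ᶠ u in 𝓝 u0, ∃ x' : Fin M → ℝ, (∀ i, x' (E (Sum.inl i)) = x (E (Sum.inl i))) ∧
    (∀ b, |x' b - x b| < δ) ∧ ∀ j, eval x' (p j) = u j

/-- ELIMINATION -/
theorem exists_elim (M D : ℕ) (hD : 1 ≤ D) : ∃ L : ℕ, 1 ≤ L ∧ ∀ {v q : ℕ} (E : Fin v ⊕ Fin q ≃ Fin M)
    (p : Fin q → MvPolynomial (Fin M) ℝ), (∀ j, (p j).totalDegree ≤ D) → ∀ (u0 : Fin q → ℝ) (a : Fin M),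
    ∃ f : MvPolynomial (Fin (v + 1)) ℝ, f ≠ 0 ∧ f.totalDegree ≤ L ∧ ∀ x : Fin M → ℝ, Opn E p u0 x →
      eval (Fin.cons (x a) (fun i => x (E (Sum.inl i))) : Fin (v + 1) → ℝ) f = 0 := by
  obtain ⟨L, hL⟩ := exists_relR M D
  refine ⟨max L 1, le_max_right _ _, ?_⟩
  intro v q E p hp u0 a
  obtain ⟨H, hH0, hH1, hH2⟩ := hL (Fin.cons (X a) (fun b => Sum.elim (fun i => X (E (Sum.inl i))) p (E.symm b))) (by
    intro i
    refine Fin.cases ?_ (fun b => ?_) i
    · rw [Fin.cons_zero, totalDegree_X]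
      exact hD
    · rw [Fin.cons_succ]
      rcases E.symm b with i | j
      · rw [Sum.elim_inl, totalDegree_X]
        exact hD
      · rw [Sum.elim_inr]
        exact hp j)
  obtain ⟨f, hf0, hf1, w, hf2⟩ := exists_spec E H hH0 u0
  refine ⟨f, hf0, hf1.trans (hH1.trans (le_max_left _ _)), fun x hx => hf2 _ _ fun δ hδ => ?_⟩
  have h1 := hx δ hδ
  have h2 : Tendsto (fun t : ℝ => fun j => u0 j + t * w j) (𝓝 0) (𝓝 u0) := by
    have h3 : Tendsto (fun t : ℝ => fun j => u0 j + t * w j) (𝓝 0) (𝓝 (fun j => u0 j + 0 * w j)) := by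
      apply Continuous.tendsto
      fun_prop
    simpa using h3
  have h3 := (h2.eventually h1).and (Metric.ball_mem_nhds (0 : ℝ) hδ)
  have h4 : ∃ᶠ t in 𝓝[≠] (0 : ℝ), (∃ x' : Fin M → ℝ, (∀ i, x' (E (Sum.inl i)) = x (E (Sum.inl i))) ∧
    (∀ b, |x' b - x b| < δ) ∧ ∀ j, eval x' (p j) = u0 j + t * w j) ∧ t ∈ Metric.ball (0 : ℝ) δ ∧ t ≠ 0 := by
    apply Eventually.frequently
    filter_upwards [nhdsWithin_le_nhds h3, self_mem_nhdsWithin] with t h5 h6
    exact ⟨h5.1, h5.2, h6⟩
  obtain ⟨t, ⟨x', hx1, hx2, hx3⟩, ht, ht0⟩ := h4.exists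
  refine ⟨t, x' a, ht0, ?_, hx2 a, ?_⟩
  · rw [Metric.mem_ball, Real.dist_eq, sub_zero] at ht
    exact ht
  · have h5 := congrArg (eval x') hH2
    rw [eval_aevalR, map_zero] at h5
    rw [← h5]
    congr 1
    congr 1
    funext i
    refine Fin.cases ?_ (fun b => ?_) i
    · rw [Fin.cons_zero, Fin.cons_zero, eval_X]
    · rw [Fin.cons_succ, Fin.cons_succ]
      unfold pt
      rcases E.symm b with i | j
      · rw [Sum.elim_inl, Sum.elim_inl, eval_X, hx1]
      · rw [Sum.elim_inr, Sum.elim_inr, hx3]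

end Pool.Agent.Helper76.PUR
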