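import Pool.Agent.Helper76.PUR.Elm
import Pool.Agent.Helper3.LF.Form

/-! SOLUTIONS near a point where the rows are bounded on the cell and the minor in the columns of the bound variables is
large: every value near the value at the point is attained in the cell, with the same free coordinates. -/

set_option autoImplicit false

namespace Pool.Agent.Helper76.PUR

open MvPolynomial Filter Topology Metric
open Pool.Agent.Helper3.LF (nodp nod nod_nonneg nod_le Cm Cm_one Cu Cu_one cell_der lin eval_lin deriv_lin pderiv_tdeg)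

noncomputable section

variable {M v q D : ℕ}

/-- second derivatives on the cell -/
lemma cell_der2 (D : ℕ) (f : MvPolynomial (Fin M) ℝ) (hf : f.totalDegree ≤ D) (p : Fin M → ℝ) (r K : ℝ) (hr : 0 < r)
    (hM : ∀ j : Fin M → Fin (D + 1), |eval (nodp D p r j) f| ≤ K) (y : Fin M → ℝ) (hy : ∀ i, |y i - p i| ≤ r)
    (i j : Fin M) : r * (r * |eval y (pderiv j (pderiv i f))|) ≤ Cm M D ^ 2 * K := by
  have h1 : ∀ l : Fin M → Fin (D + 1), |eval (nodp D p r l) (pderiv i f)| ≤ Cm M D * K / r := by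
    intro l
    rw [le_div_iff₀ hr, mul_comm]
    have h2 := cell_der D f hf p r 1 K hr le_rfl hM (nodp D p r l) (fun a => by
      show |p a + r * nod D (l a) - p a| ≤ 1 * r
      have e1 : p a + r * nod D (l a) - p a = r * nod D (l a) := by ring
      rw [e1, abs_mul, abs_of_pos hr, abs_of_nonneg (nod_nonneg D _), mul_comm]
      exact mul_le_mul_of_nonneg_right (nod_le D _ (Nat.lt_succ_iff.mp (l a).2)) hr.le) i
    rwa [one_pow, mul_one] at h2
  have h2 := cell_der D (pderiv i f) (pderiv_tdeg _ hf i) p r 1 _ hr le_rfl h1 y (fun a => by rw [one_mul]; exact hy a) j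
  rw [one_pow, mul_one] at h2
  have h3 := mul_le_mul_of_nonneg_left h2 hr.le
  refine h3.trans (le_of_eq ?_)
  field_simp

/-- mean value on a segment -/
lemma mvt (f : MvPolynomial (Fin M) ℝ) (x y : Fin M → ℝ) : ∃ t : ℝ, 0 < t ∧ t < 1 ∧
    eval y f - eval x f = ∑ b, (y b - x b) * eval (fun a => x a + t * (y a - x a)) (pderiv b f) := by
  set g := lin x (fun a => y a - x a) f with hg
  obtain ⟨t, ht, h⟩ := exists_deriv_eq_slope (fun s => g.eval s) (show (0 : ℝ) < 1 by norm_num)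
    g.continuous.continuousOn g.differentiable.differentiableOn
  refine ⟨t, ht.1, ht.2, ?_⟩
  rw [Polynomial.deriv, hg, deriv_lin, Polynomial.eval_finset_sum] at h
  have h1 : (lin x (fun a => y a - x a) f).eval 1 = eval y f := by
    rw [eval_lin]
    congr 1
    congr 1
    funext a
    ring
  have h0 : (lin x (fun a => y a - x a) f).eval 0 = eval x f := by
    rw [eval_lin]
    congr 1
    congr 1
    funext a
    ring
  rw [h1, h0, sub_zero, div_one] at h
  rw [← h]
  refine Finset.sum_congr rfl fun b _ => ?_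
  rw [Polynomial.eval_mul, Polynomial.eval_C, eval_lin]

/-- the derivative varies little on a small cell -/
lemma der_lip (D : ℕ) (f : MvPolynomial (Fin M) ℝ) (hf : f.totalDegree ≤ D) (p : Fin M → ℝ) (r K : ℝ) (hr : 0 < r)
    (hM : ∀ j : Fin M → Fin (D + 1), |eval (nodp D p r j) f| ≤ K) (y : Fin M → ℝ) {ε : ℝ} (hε1 : ε ≤ 1)
    (hy : ∀ i, |y i - p i| ≤ ε * r) (i : Fin M) :
    |r * eval y (pderiv i f) - r * eval p (pderiv i f)| ≤ M * (Cm M D ^ 2 * K) * ε := by
  obtain ⟨t, ht0, ht1, h⟩ := mvt (pderiv i f) p y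
  rw [← mul_sub, abs_mul, abs_of_pos hr, h]
  have h1 : ∀ b ∈ Finset.univ, |(y b - p b) * eval (fun a => p a + t * (y a - p a)) (pderiv b (pderiv i f))| ≤
      Cm M D ^ 2 * K * ε / r := by
    intro b _
    rw [abs_mul, le_div_iff₀ hr]
    have h2 := cell_der2 D f hf p r K hr hM (fun a => p a + t * (y a - p a)) (fun a => by
      have e1 : p a + t * (y a - p a) - p a = t * (y a - p a) := by ring
      rw [e1, abs_mul, abs_of_pos ht0]
      have h3 := hy a
      have h4 := abs_nonneg (y a - p a)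
      nlinarith) i b
    have h3 := hy b
    have h4 := abs_nonneg (eval (fun a => p a + t * (y a - p a)) (pderiv b (pderiv i f)))
    have hε0 : 0 ≤ ε := by
      have h5 := (abs_nonneg (y b - p b)).trans h3
      by_contra hc
      push Not at hc
      nlinarith
    have h5 := mul_le_mul_of_nonneg_right h3 h4
    have h6 := mul_le_mul_of_nonneg_right h5 hr.le
    have h7 := mul_le_mul_of_nonneg_left h2 hε0
    have h8 : |y b - p b| * |eval (fun a => p a + t * (y a - p a)) (pderiv b (pderiv i f))| * r ≤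
        ε * r * |eval (fun a => p a + t * (y a - p a)) (pderiv b (pderiv i f))| * r := h6
    refine h8.trans ?_
    linarith
  have h2 := (Finset.abs_sum_le_sum_abs (fun b => (y b - p b) *
    eval (fun a => p a + t * (y a - p a)) (pderiv b (pderiv i f))) Finset.univ).trans (Finset.sum_le_card_nsmul _ _ _ h1)
  rw [Finset.card_univ, Fintype.card_fin, nsmul_eq_mul] at h2
  have h3 := mul_le_mul_of_nonneg_left h2 hr.le
  refine h3.trans (le_of_eq ?_)
  field_simp

/-- the point with the bound variables moved by `r s` -/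
def Xs (E : Fin v ⊕ Fin q ≃ Fin M) (x0 : Fin M → ℝ) (r : ℝ) (s : Fin q → ℝ) : Fin M → ℝ :=
  fun b => x0 b + r * Sum.elim (fun _ => 0) s (E.symm b)

lemma Xs_inl (E : Fin v ⊕ Fin q ≃ Fin M) (x0 : Fin M → ℝ) (r : ℝ) (s : Fin q → ℝ) (i : Fin v) :
    Xs E x0 r s (E (Sum.inl i)) = x0 (E (Sum.inl i)) := by
  unfold Xs
  rw [Equiv.symm_apply_apply, Sum.elim_inl, mul_zero, add_zero]

lemma Xs_sub (E : Fin v ⊕ Fin q ≃ Fin M) (x0 : Fin M → ℝ) (r : ℝ) (s s' : Fin q → ℝ) (b : Fin M) :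
    Xs E x0 r s b - Xs E x0 r s' b = r * Sum.elim (fun _ => 0) (s - s') (E.symm b) := by
  unfold Xs
  rcases E.symm b with i | j
  · simp
  · simp only [Sum.elim_inr, Pi.sub_apply]
    ring

lemma Xs_near (E : Fin v ⊕ Fin q ≃ Fin M) (x0 : Fin M → ℝ) {r : ℝ} (hr : 0 < r) (s s' : Fin q → ℝ) (b : Fin M) :
    |Xs E x0 r s b - Xs E x0 r s' b| ≤ r * ‖s - s'‖ := by
  rw [Xs_sub, abs_mul, abs_of_pos hr]
  apply mul_le_mul_of_nonneg_left _ hr.le
  rcases E.symm b with i | j
  · rw [Sum.elim_inl, abs_zero]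
    exact norm_nonneg _
  · rw [Sum.elim_inr]
    exact norm_le_pi_norm (s - s') j

lemma Xs_zero (E : Fin v ⊕ Fin q ≃ Fin M) (x0 : Fin M → ℝ) (r : ℝ) : Xs E x0 r 0 = x0 := by
  funext b
  unfold Xs
  rcases E.symm b with i | j <;> simp

/-- the matrix of the minor -/
def mnr (E : Fin v ⊕ Fin q ≃ Fin M) (p : Fin q → MvPolynomial (Fin M) ℝ) (r : ℝ) (x0 : Fin M → ℝ) :
    Matrix (Fin q) (Fin q) ℝ := Matrix.of fun j i => r * eval x0 (pderiv (E (Sum.inr i)) (p j))

/-- the constant of the radius of solvability -/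
def cI (M D : ℕ) (K : ℝ) : ℝ := M * (M * (Cm M D ^ 2 * K)) + 1

/-- the constant of the inverse matrix -/
def cJ (q : ℕ) (B Δ : ℝ) : ℝ := (q + 1) * (q.factorial * B ^ q) / Δ

lemma sum_E (E : Fin v ⊕ Fin q ≃ Fin M) (g : Fin M → ℝ) (hg : ∀ i, g (E (Sum.inl i)) = 0) :
    ∑ b, g b = ∑ i, g (E (Sum.inr i)) := by
  rw [← Equiv.sum_comp E, Fintype.sum_sum_type]
  simp [hg]

/-- LINEAR APPROXIMATION of the rows in the bound variables -/
theorem approx (hqM : q ≤ M) (E : Fin v ⊕ Fin q ≃ Fin M) (p : Fin q → MvPolynomial (Fin M) ℝ)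
    (hp : ∀ j, (p j).totalDegree ≤ D) (x0 : Fin M → ℝ) (r K : ℝ) (hr : 0 < r) (hK0 : 0 ≤ K)
    (hM : ∀ j, ∀ l : Fin M → Fin (D + 1), |eval (nodp D x0 r l) (p j)| ≤ K) {ε : ℝ} (hε0 : 0 ≤ ε) (hε1 : ε ≤ 1) :
    ApproximatesLinearOn (fun s : Fin q → ℝ => fun j => eval (Xs E x0 r s) (p j))
      (LinearMap.toContinuousLinearMap (Matrix.toLin' (mnr E p r x0))) (closedBall 0 ε)
      ⟨cI M D K * ε, mul_nonneg (by unfold cI; positivity) hε0⟩ := by
  intro s hs s' hs'
  have hC0 : 0 ≤ cI M D K * ε := mul_nonneg (by unfold cI; positivity) hε0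
  show ‖_‖ ≤ (cI M D K * ε) * ‖s - s'‖
  rw [pi_norm_le_iff_of_nonneg (mul_nonneg hC0 (norm_nonneg _))]
  intro j
  rw [Pi.sub_apply, Pi.sub_apply, Real.norm_eq_abs]
  show |eval (Xs E x0 r s) (p j) - eval (Xs E x0 r s') (p j) - (mnr E p r x0).mulVec (s - s') j| ≤ _
  obtain ⟨t, ht0, ht1, h⟩ := mvt (p j) (Xs E x0 r s') (Xs E x0 r s)
  set ξ : Fin M → ℝ := fun a => Xs E x0 r s' a + t * (Xs E x0 r s a - Xs E x0 r s' a) with hξ
  have hξ' : ∀ a, |ξ a - x0 a| ≤ ε * r := by
    intro a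
    have h1 := Xs_near E x0 hr s 0 a
    have h2 := Xs_near E x0 hr s' 0 a
    rw [Xs_zero, sub_zero] at h1 h2
    rw [mem_closedBall, dist_zero_right] at hs hs'
    have e1 : ξ a - x0 a = (1 - t) * (Xs E x0 r s' a - x0 a) + t * (Xs E x0 r s a - x0 a) := by
      simp only [hξ]
      ring
    rw [e1]
    refine (abs_add_le _ _).trans ?_
    rw [abs_mul, abs_mul, abs_of_pos ht0, abs_of_pos (show 0 < 1 - t by linarith)]
    have h3 : |Xs E x0 r s' a - x0 a| ≤ ε * r := h2.trans (by rw [mul_comm]; exact mul_le_mul_of_nonneg_right hs' hr.le)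
    have h4 : |Xs E x0 r s a - x0 a| ≤ ε * r := h1.trans (by rw [mul_comm]; exact mul_le_mul_of_nonneg_right hs hr.le)
    nlinarith
  rw [h]
  have e1 : ∑ b, (Xs E x0 r s b - Xs E x0 r s' b) * eval ξ (pderiv b (p j)) =
      ∑ i, (s - s') i * (r * eval ξ (pderiv (E (Sum.inr i)) (p j))) := by
    rw [sum_E E _ (fun i => by rw [Xs_sub, Equiv.symm_apply_apply, Sum.elim_inl]; ring)]
    refine Finset.sum_congr rfl fun i _ => ?_
    rw [Xs_sub, Equiv.symm_apply_apply, Sum.elim_inr]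
    ring
  have e2 : (mnr E p r x0).mulVec (s - s') j = ∑ i, (s - s') i * (r * eval x0 (pderiv (E (Sum.inr i)) (p j))) := by
    unfold Matrix.mulVec dotProduct mnr
    refine Finset.sum_congr rfl fun i _ => ?_
    show r * eval x0 (pderiv (E (Sum.inr i)) (p j)) * (s - s') i = _
    ring
  rw [e1, e2, ← Finset.sum_sub_distrib]
  have h1 : ∀ i ∈ Finset.univ, |(s - s') i * (r * eval ξ (pderiv (E (Sum.inr i)) (p j))) -
      (s - s') i * (r * eval x0 (pderiv (E (Sum.inr i)) (p j)))| ≤ M * (Cm M D ^ 2 * K) * ε * ‖s - s'‖ := by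
    intro i _
    rw [← mul_sub, abs_mul, mul_comm]
    exact mul_le_mul (der_lip D (p j) (hp j) x0 r K hr (hM j) ξ hε1 hξ' _) (norm_le_pi_norm (s - s') i) (abs_nonneg _)
      (by positivity)
  have h2 := (Finset.abs_sum_le_sum_abs (fun i => (s - s') i * (r * eval ξ (pderiv (E (Sum.inr i)) (p j))) -
      (s - s') i * (r * eval x0 (pderiv (E (Sum.inr i)) (p j)))) Finset.univ).trans (Finset.sum_le_card_nsmul _ _ _ h1)
  rw [Finset.card_univ, Fintype.card_fin, nsmul_eq_mul] at h2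
  refine h2.trans ?_
  have h3 : (q : ℝ) * (M * (Cm M D ^ 2 * K) * ε * ‖s - s'‖) ≤ M * (M * (Cm M D ^ 2 * K) * ε * ‖s - s'‖) := by
    apply mul_le_mul_of_nonneg_right _ (by positivity)
    exact_mod_cast hqM
  refine h3.trans ?_
  unfold cI
  have h4 : 0 ≤ ε * ‖s - s'‖ := by positivity
  nlinarith

/-- the inverse matrix -/
lemma inv_bd (A : Matrix (Fin q) (Fin q) ℝ) {B Δ : ℝ} (hB1 : 1 ≤ B) (hB : ∀ i j, |A i j| ≤ B) (hΔ : 0 < Δ)
    (hA : Δ ≤ |A.det|) (y : Fin q → ℝ) : ‖A⁻¹.mulVec y‖ ≤ cJ q B Δ * ‖y‖ := by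
  have hdet : A.det ≠ 0 := by
    intro h
    rw [h, abs_zero] at hA
    linarith
  have hc0 : 0 ≤ cJ q B Δ := by
    unfold cJ
    positivity
  rw [pi_norm_le_iff_of_nonneg (by positivity)]
  intro i
  have h1 : ∀ j, |A⁻¹ i j| ≤ (q.factorial * B ^ q) / Δ := by
    intro j
    rw [Matrix.inv_def, Matrix.smul_apply, smul_eq_mul, Ring.inverse_eq_inv', Matrix.adjugate_apply, abs_mul, abs_inv,
      mul_comm, ← div_eq_mul_inv]
    have h2 : |(A.updateRow j (Pi.single i 1)).det| ≤ q.factorial * B ^ q := by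
      have h3 := Matrix.det_le (A := A.updateRow j (Pi.single i 1)) (abv := IsAbsoluteValue.toAbsoluteValue (abs : ℝ → ℝ))
        (x := B) (fun a b => by
          show |A.updateRow j (Pi.single i 1) a b| ≤ B
          by_cases ha : a = j
          · subst ha
            rw [Matrix.updateRow_self]
            by_cases hb : b = i
            · subst hb
              rw [Pi.single_eq_same, abs_one]
              exact hB1
            · rw [Pi.single_eq_of_ne hb, abs_zero]
              linarith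
          · rw [Matrix.updateRow_ne ha]
            exact hB a b)
      rw [Fintype.card_fin, nsmul_eq_mul] at h3
      exact h3
    exact div_le_div₀ (by positivity) h2 hΔ hA
  show ‖(A⁻¹.mulVec y) i‖ ≤ _
  rw [Real.norm_eq_abs]
  unfold Matrix.mulVec dotProduct
  refine (Finset.abs_sum_le_sum_abs _ _).trans ?_
  have h2 : ∀ j ∈ Finset.univ, |A⁻¹ i j * y j| ≤ (q.factorial * B ^ q) / Δ * ‖y‖ := by
    intro j _
    rw [abs_mul]
    exact mul_le_mul (h1 j) (norm_le_pi_norm y j) (abs_nonneg _) (by positivity)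
  refine (Finset.sum_le_card_nsmul _ _ _ h2).trans ?_
  rw [Finset.card_univ, Fintype.card_fin, nsmul_eq_mul]
  unfold cJ
  have h3 : 0 ≤ (q.factorial * B ^ q) / Δ * ‖y‖ := by positivity
  have e1 : ((q : ℝ) + 1) * (q.factorial * B ^ q) / Δ * ‖y‖ = (q + 1) * ((q.factorial * B ^ q) / Δ * ‖y‖) := by ring
  rw [e1]
  nlinarith

/-- SOLUTIONS exist near the point -/
theorem exists_sol (hqM : q ≤ M) (E : Fin v ⊕ Fin q ≃ Fin M) (p : Fin q → MvPolynomial (Fin M) ℝ)
    (hp : ∀ j, (p j).totalDegree ≤ D) (x0 : Fin M → ℝ) (r K : ℝ) (hr : 0 < r) (hK1 : 1 ≤ K)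
    (hM : ∀ j, ∀ l : Fin M → Fin (D + 1), |eval (nodp D x0 r l) (p j)| ≤ K) {Δ : ℝ} (hΔ : 0 < Δ)
    (hdet : Δ ≤ |(mnr E p r x0).det|) (u0 : Fin q → ℝ)
    (hu : ∀ j, |u0 j - eval x0 (p j)| * (8 * cI M D K * (cJ q (Cm M D * K) Δ + 1) ^ 2) ≤ 1) :
    ∃ x : Fin M → ℝ, (∀ i, x (E (Sum.inl i)) = x0 (E (Sum.inl i))) ∧ (∀ b, |x b - x0 b| ≤ r) ∧
      (∀ j, eval x (p j) = u0 j) ∧ Opn E p u0 x := by
  have hCm := Cm_one M D
  set A := mnr E p r x0 with hA
  have hB : ∀ i j, |A i j| ≤ Cm M D * K := by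
    intro i j
    show |r * eval x0 (pderiv (E (Sum.inr j)) (p i))| ≤ _
    rw [abs_mul, abs_of_pos hr]
    have h1 := cell_der D (p i) (hp i) x0 r 1 K hr le_rfl (hM i) x0 (fun a => by
      rw [sub_self, abs_zero, one_mul]
      exact hr.le) (E (Sum.inr j))
    rwa [one_pow, mul_one] at h1
  have hB1 : 1 ≤ Cm M D * K := by nlinarith
  have hdet0 : A.det ≠ 0 := by
    intro h
    rw [h, abs_zero] at hdet
    linarith
  set ν : ℝ := cJ q (Cm M D * K) Δ + 1 with hν
  have hν1 : 1 ≤ ν := by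
    rw [hν]
    have : 0 ≤ cJ q (Cm M D * K) Δ := by
      unfold cJ
      positivity
    linarith
  have hcI1 : 1 ≤ cI M D K := by
    unfold cI
    have : (0 : ℝ) ≤ M * (M * (Cm M D ^ 2 * K)) := by positivity
    linarith
  set ε : ℝ := 1 / (2 * cI M D K * ν) with hε
  have hε0 : 0 < ε := by positivity
  have hε1 : ε ≤ 1 := by
    rw [hε, div_le_one (by positivity)]
    nlinarith
  have hcε : cI M D K * ε = 1 / (2 * ν) := by
    rw [hε]
    field_simp
  have hap := approx hqM E p hp x0 r K hr (by linarith) hM hε0.le hε1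
  set φ : (Fin q → ℝ) → Fin q → ℝ := fun s j => eval (Xs E x0 r s) (p j) with hφ
  let Ri : (LinearMap.toContinuousLinearMap (Matrix.toLin' A)).NonlinearRightInverse :=
    { toFun := fun y => A⁻¹.mulVec y
      nnnorm := ⟨ν, by linarith⟩
      bound' := fun y => by
        refine (inv_bd A hB1 hB hΔ hdet y).trans ?_
        show _ ≤ ν * ‖y‖
        apply mul_le_mul_of_nonneg_right _ (norm_nonneg _)
        rw [hν]
        linarith
      right_inv' := fun y => by
        show (Matrix.toLin' A) (A⁻¹.mulVec y) = y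
        rw [Matrix.toLin'_apply, Matrix.mulVec_mulVec, Matrix.mul_nonsing_inv A (Ne.isUnit hdet0), Matrix.one_mulVec] }
  have hsub : closedBall (0 : Fin q → ℝ) (ε / 2) ⊆ closedBall 0 ε := closedBall_subset_closedBall (by linarith)
  have hsurj := hap.surjOn_closedBall_of_nonlinearRightInverse Ri (ε := ε / 2) (b := 0) (by linarith) hsub
  have hφ0 : φ 0 = fun j => eval x0 (p j) := by
    simp only [hφ]
    rw [Xs_zero]
  have hu0 : u0 ∈ closedBall (φ 0) ((((Ri.nnnorm : NNReal) : ℝ)⁻¹ - (cI M D K * ε)) * (ε / 2)) := by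
    rw [mem_closedBall, dist_eq_norm]
    have e1 : (((Ri.nnnorm : NNReal) : ℝ)⁻¹ - (cI M D K * ε)) * (ε / 2) = 1 / (8 * cI M D K * ν ^ 2) := by
      have e2 : ((Ri.nnnorm : NNReal) : ℝ) = ν := rfl
      rw [e2, hcε, hε]
      have : ν ≠ 0 := by linarith
      have : cI M D K ≠ 0 := by linarith
      field_simp
      ring
    rw [e1, pi_norm_le_iff_of_nonneg (by positivity)]
    intro j
    rw [Pi.sub_apply, hφ0, Real.norm_eq_abs, le_div_iff₀ (by positivity)]
    exact hu j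
  obtain ⟨s, hs, hs2⟩ := hsurj hu0
  have hs1 : ‖s‖ ≤ ε / 2 := by
    rw [mem_closedBall, dist_zero_right] at hs
    exact hs
  refine ⟨Xs E x0 r s, fun i => Xs_inl E x0 r s i, fun b => ?_, fun j => congrFun hs2 j, ?_⟩
  · have h1 := Xs_near E x0 hr s 0 b
    rw [Xs_zero, sub_zero] at h1
    refine h1.trans ?_
    nlinarith
  · have hnb : closedBall (0 : Fin q → ℝ) ε ∈ 𝓝 s := by
      apply mem_of_superset (ball_mem_nhds s (show 0 < ε / 2 by linarith))
      intro y hy
      rw [mem_ball, dist_eq_norm] at hy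
      rw [mem_closedBall, dist_zero_right]
      have h1 := norm_add_le (y - s) s
      rw [sub_add_cancel] at h1
      linarith
    have hlt : cI M D K * ε < ((Ri.nnnorm⁻¹ : NNReal) : ℝ) := by
      rw [NNReal.coe_inv]
      show cI M D K * ε < ν⁻¹
      rw [hcε, ← one_div, div_lt_div_iff₀ (by positivity) (by positivity)]
      nlinarith
    have hmap := hap.map_nhds_eq Ri hnb (Or.inr (NNReal.coe_lt_coe.mp hlt))
    intro δ hδ
    have h1 : {y : Fin q → ℝ | ∀ b, |Xs E x0 r y b - Xs E x0 r s b| < δ} ∈ 𝓝 s := by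
      apply mem_of_superset (ball_mem_nhds s (show 0 < δ / r by positivity))
      intro y hy b
      rw [mem_ball, dist_eq_norm, lt_div_iff₀ hr, mul_comm] at hy
      exact lt_of_le_of_lt (Xs_near E x0 hr y s b) hy
    have h2 := image_mem_map (m := φ) h1
    have h3 : map φ (𝓝 s) = 𝓝 u0 := by
      rw [← hs2]
      exact hmap
    rw [h3] at h2
    filter_upwards [h2] with u hu'
    obtain ⟨y, hy1, hy2⟩ := hu'
    refine ⟨Xs E x0 r y, fun i => ?_, hy1, fun j => congrFun hy2 j⟩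
    rw [Xs_inl, Xs_inl]

end

end Pool.Agent.Helper76.PUR
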