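import Pool.Agent.Helper76.RL.Fof
import Pool.Agent.Helper76.DIM.Frm

/-! LINEAR ALGEBRA: a form on `M = v + q` coordinates, increased by `t` on `v` of them, has determinant at least
`t ^ v` times the principal minor of the other coordinates. The best minor of the rows. -/

set_option autoImplicit false

namespace Pool.Agent.Helper76.PUR

open Matrix
open Pool.Agent.Helper95.LF (PdM det_le_pow self_pos)

noncomputable section

variable {M v q : ℕ}

/-- quadratic forms in other coordinates -/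
lemma qf_submatrix (E : Fin v ⊕ Fin q ≃ Fin M) (B : Matrix (Fin M) (Fin M) ℝ) (y : Fin v ⊕ Fin q → ℝ) :
    y ⬝ᵥ (B.submatrix E E *ᵥ y) = (fun a => y (E.symm a)) ⬝ᵥ (B *ᵥ fun a => y (E.symm a)) := by
  have h1 : ∀ i, (B.submatrix E E *ᵥ y) i = (B *ᵥ fun a => y (E.symm a)) (E i) := by
    intro i
    show ∑ j, B (E i) (E j) * y j = ∑ a, B (E i) a * y (E.symm a)
    rw [← Equiv.sum_comp E]
    refine Finset.sum_congr rfl fun j _ => ?_
    rw [Equiv.symm_apply_apply]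
  unfold dotProduct
  rw [← Equiv.sum_comp E]
  refine Finset.sum_congr rfl fun i _ => ?_
  show y i * (B.submatrix E E *ᵥ y) i = y (E.symm (E i)) * _
  rw [Equiv.symm_apply_apply, h1]

lemma psd_par {B : Matrix (Fin M) (Fin M) ℝ} (hs : B.IsSymm) (h0 : ∀ x, 0 ≤ x ⬝ᵥ (B *ᵥ x)) (x y : Fin M → ℝ) :
    (x - y) ⬝ᵥ (B *ᵥ (x - y)) ≤ 2 * (x ⬝ᵥ (B *ᵥ x)) + 2 * (y ⬝ᵥ (B *ᵥ y)) := by
  have h1 := h0 (x + y)
  have h2 : y ⬝ᵥ (B *ᵥ x) = x ⬝ᵥ (B *ᵥ y) := by
    rw [Matrix.dotProduct_mulVec, ← Matrix.mulVec_transpose, hs.eq, dotProduct_comm]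
  have e1 : (x - y) ⬝ᵥ (B *ᵥ (x - y)) = x ⬝ᵥ (B *ᵥ x) - 2 * (x ⬝ᵥ (B *ᵥ y)) + y ⬝ᵥ (B *ᵥ y) := by
    rw [Matrix.mulVec_sub, dotProduct_sub, sub_dotProduct, sub_dotProduct, h2]
    ring
  have e2 : (x + y) ⬝ᵥ (B *ᵥ (x + y)) = x ⬝ᵥ (B *ᵥ x) + 2 * (x ⬝ᵥ (B *ᵥ y)) + y ⬝ᵥ (B *ᵥ y) := by
    rw [Matrix.mulVec_add, dotProduct_add, add_dotProduct, add_dotProduct, h2]
    ring
  rw [e2] at h1
  rw [e1]
  linarith

/-- a form increased by `t` in the free directions -/
theorem det_block (E : Fin v ⊕ Fin q ≃ Fin M) {B B' : Matrix (Fin M) (Fin M) ℝ} (hB : PdM B) (hB' : PdM B') {t K : ℝ}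
    (ht : 0 < t) (hK : 0 ≤ K)
    (h1 : ∀ x : Fin M → ℝ, x ⬝ᵥ (B *ᵥ x) + t * ∑ i, x (E (Sum.inl i)) ^ 2 ≤ x ⬝ᵥ (B' *ᵥ x))
    (h2 : ∀ x : Fin M → ℝ, x ⬝ᵥ (B *ᵥ x) ≤ K * t * ∑ a, x a ^ 2) :
    t ^ v * (B.submatrix (fun j => E (Sum.inr j)) (fun j => E (Sum.inr j))).det ≤ (2 * K + 3) ^ M * B'.det := by
  classical
  set Bt := B.submatrix (fun j => E (Sum.inr j)) (fun j => E (Sum.inr j)) with hBt
  set C : Matrix (Fin v ⊕ Fin q) (Fin v ⊕ Fin q) ℝ := Matrix.fromBlocks (t • 1) 0 0 Bt with hC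
  have hq : ∀ y : Fin v ⊕ Fin q → ℝ, y ⬝ᵥ (C *ᵥ y) = t * (∑ i, y (Sum.inl i) ^ 2) +
      (fun j => y (Sum.inr j)) ⬝ᵥ (Bt *ᵥ fun j => y (Sum.inr j)) := by
    intro y
    have e1 : y = Sum.elim (fun i => y (Sum.inl i)) (fun j => y (Sum.inr j)) := by
      funext s
      rcases s with i | j <;> rfl
    conv_lhs => rw [e1]
    rw [hC, Matrix.fromBlocks_mulVec, sumElim_dotProduct_sumElim]
    congr 1
    · rw [Sum.elim_comp_inl, Sum.elim_comp_inr, Matrix.zero_mulVec, add_zero, Matrix.smul_mulVec, Matrix.one_mulVec,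
        dotProduct_smul, smul_eq_mul]
      congr 1
      unfold dotProduct
      exact Finset.sum_congr rfl fun i _ => (sq _).symm
    · rw [Sum.elim_comp_inl, Sum.elim_comp_inr, Matrix.zero_mulVec, zero_add]
  have hBe : ∀ z : Fin q → ℝ, z ⬝ᵥ (Bt *ᵥ z) = (fun a => Sum.elim (fun _ => 0) z (E.symm a)) ⬝ᵥ
      (B *ᵥ fun a => Sum.elim (fun _ => 0) z (E.symm a)) := by
    intro z
    rw [← qf_submatrix E B (Sum.elim (fun _ => (0 : ℝ)) z)]
    unfold dotProduct mulVec dotProduct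
    rw [Fintype.sum_sum_type]
    simp only [Sum.elim_inl, zero_mul, Finset.sum_const_zero, zero_add, Sum.elim_inr, Fintype.sum_sum_type, mul_zero]
    rfl
  have hBts : Bt.IsSymm := by
    unfold Matrix.IsSymm
    rw [hBt, Matrix.transpose_submatrix, hB.1.eq]
  have hBt0 : ∀ z : Fin q → ℝ, z ≠ 0 → 0 < z ⬝ᵥ (Bt *ᵥ z) := by
    intro z hz
    rw [hBe]
    apply hB.2
    intro h
    apply hz
    funext j
    have := congrFun h (E (Sum.inr j))
    simpa using this
  have hCp : PdM C := by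
    refine ⟨?_, fun y hy => ?_⟩
    · unfold Matrix.IsSymm
      rw [hC, Matrix.fromBlocks_transpose, hBts.eq]
      simp
    · rw [hq]
      have h3 : 0 ≤ ∑ i, y (Sum.inl i) ^ 2 := Finset.sum_nonneg fun i _ => sq_nonneg _
      by_cases hz : (fun j => y (Sum.inr j)) = 0
      · rw [hz, zero_dotProduct, add_zero]
        apply mul_pos ht
        have h4 : ∃ i, y (Sum.inl i) ≠ 0 := by
          by_contra hc
          push Not at hc
          apply hy
          funext s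
          rcases s with i | j
          · exact hc i
          · exact congrFun hz j
        obtain ⟨i, hi⟩ := h4
        exact Finset.sum_pos' (fun _ _ => sq_nonneg _) ⟨i, Finset.mem_univ _, by positivity⟩
      · have h4 := hBt0 _ hz
        have h5 := mul_nonneg ht.le h3
        linarith
  have hBE : PdM (B'.submatrix E E) := by
    refine ⟨?_, fun y hy => ?_⟩
    · unfold Matrix.IsSymm
      rw [Matrix.transpose_submatrix, hB'.1.eq]
    · rw [qf_submatrix]
      apply hB'.2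
      intro h
      apply hy
      funext s
      have := congrFun h (E s)
      simpa using this
  have h3 := det_le_pow hBE hCp (K := 2 * K + 3) (by linarith) (fun y => by
    rw [hq, qf_submatrix]
    set x : Fin M → ℝ := fun a => y (E.symm a) with hx
    set x1 : Fin M → ℝ := fun a => Sum.elim (fun i => y (Sum.inl i)) (fun _ => 0) (E.symm a) with hx1
    have e1 : (fun a => Sum.elim (fun _ => 0) (fun j => y (Sum.inr j)) (E.symm a)) = x - x1 := by
      funext a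
      simp only [hx, hx1, Pi.sub_apply]
      rcases E.symm a with i | j <;> simp
    rw [hBe, e1]
    have h4 := psd_par hB.1 (fun x => by
      by_cases hx : x = 0
      · rw [hx, zero_dotProduct]
      · exact (hB.2 x hx).le) x x1
    have h5 := h2 x1
    have h6 := h1 x
    have e2 : ∑ i, x (E (Sum.inl i)) ^ 2 = ∑ i, y (Sum.inl i) ^ 2 := by
      refine Finset.sum_congr rfl fun i _ => ?_
      simp only [hx, Equiv.symm_apply_apply]
    have e3 : ∑ a, x1 a ^ 2 = ∑ i, y (Sum.inl i) ^ 2 := by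
      rw [← Equiv.sum_comp E, Fintype.sum_sum_type]
      simp only [hx1, Equiv.symm_apply_apply, Sum.elim_inl, Sum.elim_inr]
      simp
    rw [e2] at h6
    rw [e3] at h5
    have h7 : 0 ≤ t * ∑ i, y (Sum.inl i) ^ 2 := mul_nonneg ht.le (Finset.sum_nonneg fun i _ => sq_nonneg _)
    have h8 : 0 ≤ x ⬝ᵥ (B *ᵥ x) := by
      by_cases hx0 : x = 0
      · rw [hx0, zero_dotProduct]
      · exact (hB.2 x hx0).le
    have h9 : K * t * ∑ i, y (Sum.inl i) ^ 2 = K * (t * ∑ i, y (Sum.inl i) ^ 2) := by ring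
    rw [h9] at h5
    have h10 : (2 * K + 3) * (x ⬝ᵥ (B *ᵥ x) + t * ∑ i, y (Sum.inl i) ^ 2) ≤ (2 * K + 3) * (x ⬝ᵥ (B' *ᵥ x)) :=
      mul_le_mul_of_nonneg_left h6 (by linarith)
    nlinarith [mul_nonneg hK h8, mul_nonneg hK h7])
  rw [Matrix.det_submatrix_equiv_self, hC, Matrix.det_fromBlocks_zero₂₁, Matrix.det_smul, Matrix.det_one, mul_one,
    Fintype.card_sum, Fintype.card_fin, Fintype.card_fin] at h3
  have h4 : v + q = M := by
    have := Fintype.card_congr E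
    simpa using this
  rw [h4] at h3
  exact h3

end

end Pool.Agent.Helper76.PUR
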