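import Pool.Agent.Helper76.PUR.Lin
import Pool.Agent.Helper76.PUR.Ift

/-! THE ROWS of a form at a point: `q` rows with a large minor in the given columns, if the principal minor of the form in
these columns is as large as possible. -/

set_option autoImplicit false

namespace Pool.Agent.Helper76.PUR

open MvPolynomial Matrix
open Pool.Agent.Helper95.LF (PdM)
open Pool.Agent.Helper3.LF Pool.Agent.Helper84.MT Pool.Agent.Helper89.LX
open Pool.Agent.Helper76.RL (fam fam_deg jac Rw cR cR_pos exists_minor trp pderiv_trp eval_trp cP cP_one)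
open Pool.Agent.Helper76.DIM (fac fac_spec)

noncomputable section

variable {M v q D : ℕ}

lemma jac_X (C : Matrix (Mon M D) (Mon M D) ℝ) (r : ℝ) (x : Fin M → ℝ) (c d : Fin M) :
    jac (fam C r) x (Sum.inr c) d = if c = d then 1 else 0 := by
  show eval x (pderiv d (X c)) = _
  rw [pderiv_X]
  by_cases h : c = d
  · subst h
    simp
  · rw [if_neg h, Pi.single_eq_of_ne h, map_zero]

lemma jac_fam (C : Matrix (Mon M D) (Mon M D) ℝ) (r : ℝ) (x : Fin M → ℝ) :
    (jac (fam C r) x).transpose * jac (fam C r) x = 1 + Jq r (C.transpose * C) x := by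
  ext a b
  rw [Matrix.add_apply, Jq_apply, Matrix.mul_apply, Fintype.sum_sum_type, add_comm]
  congr 1
  · rw [Matrix.one_apply]
    have h1 : ∀ c : Fin M, (jac (fam C r) x).transpose a (Sum.inr c) * jac (fam C r) x (Sum.inr c) b =
        (if c = a then 1 else 0) * (if c = b then 1 else 0) := by
      intro c
      rw [Matrix.transpose_apply, jac_X, jac_X]
    rw [Finset.sum_congr rfl (fun c _ => h1 c)]
    simp [eq_comm]
  · rw [Fintype.sum_prod_type, Finset.sum_comm]
    refine Finset.sum_congr rfl fun j _ => ?_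
    rw [← Matrix.mulVec_mulVec, Matrix.dotProduct_mulVec, Matrix.vecMul_transpose]
    unfold dotProduct
    refine Finset.sum_congr rfl fun k _ => ?_
    have h3 : ∀ d : Fin M, jac (fam C r) x (Sum.inl (k, j)) d = (C *ᵥ Pool.Agent.Helper3.LF.dd d (nodp D x r j)) k := by
      intro d
      show eval x (pderiv d (trp D r j (pol (C k)))) = _
      rw [pderiv_trp, eval_trp, eval_pderiv_pol]
      rfl
    rw [Matrix.transpose_apply, h3, h3]

/-- a matrix with one small row -/
lemma det_small (A : Matrix (Fin q) (Fin q) ℝ) (j : Fin q) {B r : ℝ} (hB1 : 1 ≤ B) (hr : 0 < r)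
    (hB : ∀ i l, |A i l| ≤ B) (hj : ∀ l, |A j l| ≤ r) : |A.det| ≤ r * (q.factorial * B ^ q) := by
  have e1 : A = (A.updateRow j (r • fun l => A j l / r)) := by
    ext i l
    by_cases hi : i = j
    · subst hi
      rw [Matrix.updateRow_self, Pi.smul_apply, smul_eq_mul]
      field_simp
    · rw [Matrix.updateRow_ne hi]
  rw [e1, Matrix.det_updateRow_smul, abs_mul, abs_of_pos hr]
  apply mul_le_mul_of_nonneg_left _ hr.le
  have h3 := Matrix.det_le (A := A.updateRow j (fun l => A j l / r))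
    (abv := IsAbsoluteValue.toAbsoluteValue (abs : ℝ → ℝ)) (x := B) (fun a b => by
      show |A.updateRow j (fun l => A j l / r) a b| ≤ B
      by_cases ha : a = j
      · subst ha
        rw [Matrix.updateRow_self, abs_div, abs_of_pos hr]
        exact ((div_le_one hr).mpr (hj b)).trans hB1
      · rw [Matrix.updateRow_ne ha]
        exact hB a b)
  rw [Fintype.card_fin, nsmul_eq_mul] at h3
  exact h3

/-- size of the rows on the cell -/
def cW (M D : ℕ) (K : ℝ) : ℝ := 2 * cP M D * K

/-- the rows on the cell -/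
lemma rows_bd {A : Matrix (Mon M D) (Mon M D) ℝ} (hA : PdM A) {r K : ℝ} (hr : 0 < r) (hr1 : r ≤ 1) (hK1 : 1 ≤ K)
    (x : Fin M → ℝ) (hφ : phi r A x ≤ K) (hx : ∀ i, |x i| ≤ K) (ρ : Rw M D) (l : Fin M → Fin (D + 1)) :
    |eval (nodp D x r l) (fam (fac A) r ρ)| ≤ cW M D K := by
  have e1 := fac_spec hA
  have h1 := Pool.Agent.Helper76.RL.mem_Reg (C := fac A) (by rw [← e1]; exact hA) hr hr1 hK1 (p := x)
    (x := nodp D x r l) (by rw [← e1]; exact hφ) hx (fun i => by
      show |x i + r * nod D (l i) - x i| ≤ r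
      have e2 : x i + r * nod D (l i) - x i = r * nod D (l i) := by ring
      rw [e2, abs_mul, abs_of_pos hr, abs_of_nonneg (nod_nonneg D _)]
      exact mul_le_of_le_one_right hr.le (nod_le D _ (Nat.lt_succ_iff.mp (l i).2)))
  exact h1 ρ

/-- bound of the entries of the minor -/
def cB1 (M D : ℕ) (K : ℝ) : ℝ := Cm M D * cW M D K

lemma cW_one (M D : ℕ) {K : ℝ} (hK : 1 ≤ K) : 1 ≤ cW M D K := by
  unfold cW
  have := cP_one M D
  nlinarith

lemma cB1_one (M D : ℕ) {K : ℝ} (hK : 1 ≤ K) : 1 ≤ cB1 M D K := by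
  unfold cB1
  exact one_le_mul_of_one_le_of_one_le (Cm_one M D) (cW_one M D hK)

/-- the derivatives of the rows -/
lemma rows_der {A : Matrix (Mon M D) (Mon M D) ℝ} (hD : 1 ≤ D) (hA : PdM A) {r K : ℝ} (hr : 0 < r) (hr1 : r ≤ 1)
    (hK1 : 1 ≤ K) (x : Fin M → ℝ) (hφ : phi r A x ≤ K) (hx : ∀ i, |x i| ≤ K) (ρ : Rw M D) (a : Fin M) :
    |r * eval x (pderiv a (fam (fac A) r ρ))| ≤ cB1 M D K := by
  rw [abs_mul, abs_of_pos hr]
  have h1 := cell_der D (fam (fac A) r ρ) (fam_deg hD _ _ _) x r 1 (cW M D K) hr le_rfl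
    (rows_bd hA hr hr1 hK1 x hφ hx ρ) x (fun b => by
      rw [sub_self, abs_zero, one_mul]
      exact hr.le) a
  rwa [one_pow, mul_one] at h1

/-- number of rows -/
def nRw (M D : ℕ) : ℕ := Fintype.card (Rw M D)

/-- THE BEST ROWS for the columns `E ∘ inr` -/
theorem exists_rows {A : Matrix (Mon M D) (Mon M D) ℝ} (hD : 1 ≤ D) (hA : PdM A) {r K : ℝ} (hr : 0 < r) (hr1 : r ≤ 1)
    (hK1 : 1 ≤ K) (x : Fin M → ℝ) (hφ : phi r A x ≤ K) (hx : ∀ i, |x i| ≤ K) (E : Fin v ⊕ Fin q ≃ Fin M)
    (hE : 1 ≤ K * (r ^ (2 * q) *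
      ((1 + Jq r A x).submatrix (fun j => E (Sum.inr j)) (fun j => E (Sum.inr j))).det))
    (hsm : K * cR q (nRw M D) * (r * (q.factorial * cB1 M D K ^ q)) ^ 2 < 1) :
    ∃ I : Fin q → Mon M D × (Fin M → Fin (D + 1)),
      1 ≤ K * cR q (nRw M D) * (mnr E (fun j => fam (fac A) r (Sum.inl (I j))) r x).det ^ 2 := by
  classical
  set τ : Fin q → Fin M := fun j => E (Sum.inr j) with hτ
  set B : Matrix (Rw M D) (Fin q) ℝ := (jac (fam (fac A) r) x).submatrix id τ with hB
  have hBB : B.transpose * B = (1 + Jq r A x).submatrix τ τ := by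
    have h1 := jac_fam (fac A) r x
    rw [← fac_spec hA] at h1
    rw [← h1]
    ext a b
    rfl
  have hτi : Function.Injective τ := fun a b h => Sum.inr_injective (E.injective h)
  have hI0 : (B.submatrix (fun j => (Sum.inr (τ j) : Rw M D)) id).det ≠ 0 := by
    have e1 : B.submatrix (fun j => (Sum.inr (τ j) : Rw M D)) id = 1 := by
      ext a b
      rw [Matrix.submatrix_apply, hB, Matrix.submatrix_apply, id, id, jac_X, Matrix.one_apply]
      by_cases h : a = b
      · rw [if_pos h, if_pos (by rw [h])]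
      · rw [if_neg h, if_neg fun h' => h (hτi h')]
    rw [e1, Matrix.det_one]
    exact one_ne_zero
  obtain ⟨I, hI, -⟩ := exists_minor B ⟨_, hI0⟩
  rw [hBB] at hI
  have hr2 : r ^ (2 * q) = (r ^ q) ^ 2 := by
    rw [← pow_mul, mul_comm]
  have hkey : 1 ≤ K * cR q (nRw M D) * ((r • B.submatrix I id).det) ^ 2 := by
    rw [Matrix.det_smul, Fintype.card_fin, mul_pow, ← hr2]
    have h1 : 0 ≤ K * r ^ (2 * q) := by positivity
    have h2 := mul_le_mul_of_nonneg_left hI h1
    have h3 : K * r ^ (2 * q) * (cR q (Fintype.card (Rw M D)) * (B.submatrix I id).det ^ 2) =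
        K * cR q (nRw M D) * (r ^ (2 * q) * (B.submatrix I id).det ^ 2) := by
      unfold nRw
      ring
    rw [h3] at h2
    refine le_trans ?_ h2
    rw [mul_assoc]
    exact hE
  have hBB' : ∀ i l, |(r • B.submatrix I id) i l| ≤ cB1 M D K := by
    intro i l
    exact rows_der hD hA hr hr1 hK1 x hφ hx (I i) (τ l)
  have hinl : ∀ j, ∃ k, I j = Sum.inl k := by
    intro j
    rcases hj : I j with k | c
    · exact ⟨k, rfl⟩
    · exfalso
      have h1 := det_small (r • B.submatrix I id) j (B := cB1 M D K) (cB1_one M D hK1) hr hBB' (fun l => by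
        show |r * jac (fam (fac A) r) x (I j) (τ l)| ≤ r
        rw [hj, jac_X, abs_mul, abs_of_pos hr]
        apply mul_le_of_le_one_right hr.le
        split_ifs <;> simp)
      have h2 : ((r • B.submatrix I id).det) ^ 2 ≤ (r * (q.factorial * cB1 M D K ^ q)) ^ 2 := by
        rw [← sq_abs]
        exact pow_le_pow_left₀ (abs_nonneg _) h1 2
      have h3 : 0 ≤ K * cR q (nRw M D) := mul_nonneg (by linarith) (cR_pos _ _).le
      have h4 := mul_le_mul_of_nonneg_left h2 h3
      linarith
  choose k hk using hinl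
  refine ⟨k, ?_⟩
  have e1 : mnr E (fun j => fam (fac A) r (Sum.inl (k j))) r x = r • B.submatrix I id := by
    ext j i
    show r * eval x (pderiv (E (Sum.inr i)) (fam (fac A) r (Sum.inl (k j)))) = r * eval x (pderiv (τ i) (fam (fac A) r (I j)))
    rw [hk]
  rw [e1]
  exact hkey

end

end Pool.Agent.Helper76.PUR
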